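import Pool.Agent.J6H38.DIR.Stm

/-!
# Module UNIQ: for a continuous law minimal paths are unique (helper1)
-/

set_option autoImplicit false

open MeasureTheory ProbabilityTheory Filter Topology
open scoped ENNReal

namespace Pool.Agent.J6H1.DIR

open Pool.Agent.J6H99.NC
open Pool.Agent.J6H38.DIR (Uniq UniqT)

variable {e : ℕ}

/-- the cost of a set of edges -/
noncomputable def sc (q : Par) (A : Finset (Sym2 (V e))) (ω : Om e) : ℝ := ∑ s ∈ A, q.w (ω s)

lemma measurable_sc (q : Par) (A : Finset (Sym2 (V e))) {B : Set (Sym2 (V e))} (h : ∀ s ∈ A, s ∈ B) :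
    Measurable[MS B] (fun ω : Om e => sc q A ω) := by
  unfold sc
  exact Finset.measurable_sum A fun s hs => q.measurable_w.comp (measurable_eval (h s hs))

/-- independent, one of them without atoms -/
lemma prob_eq_zero {Ω : Type*} [MeasurableSpace Ω] {μ : Measure Ω} [IsProbabilityMeasure μ] {X Y : Ω → ℝ}
    (hX : Measurable X) (hY : Measurable Y) (h : IndepFun Y X μ) (h0 : ∀ t : ℝ, μ {ω | X ω = t} = 0) :
    μ {ω | X ω = Y ω} = 0 := by
  have h1 := (indepFun_iff_map_prod_eq_prod_map_map hY.aemeasurable hX.aemeasurable).1 h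
  have hd : MeasurableSet {z : ℝ × ℝ | z.2 = z.1} := measurableSet_eq_fun measurable_snd measurable_fst
  have h2 : {ω | X ω = Y ω} = (fun ω => (Y ω, X ω)) ⁻¹' {z : ℝ × ℝ | z.2 = z.1} := rfl
  rw [h2, ← Measure.map_apply (hY.prodMk hX) hd, h1]
  have : IsProbabilityMeasure (μ.map X) := Measure.isProbabilityMeasure_map hX.aemeasurable
  have : IsProbabilityMeasure (μ.map Y) := Measure.isProbabilityMeasure_map hY.aemeasurable
  rw [Measure.measure_prod_null hd]
  refine Eventually.of_forall fun y => ?_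
  show (μ.map X) (Prod.mk y ⁻¹' {z : ℝ × ℝ | z.2 = z.1}) = 0
  have h3 : Prod.mk y ⁻¹' {z : ℝ × ℝ | z.2 = z.1} = {x : ℝ | x = y} := rfl
  have h4 : {x : ℝ | x = y} = {y} := Set.ext fun _ => Iff.rfl
  rw [h3, h4, Measure.map_apply hX (measurableSet_singleton y)]
  exact h0 y

lemma one_side (q : Par) (F : Measure ℝ) [IsProbabilityMeasure F] (hF : ∀ t : ℝ, F {s | q.w s = t} = 0)
    (A A' : Finset (Sym2 (V e))) (s0 : Sym2 (V e)) (h1 : s0 ∈ A) (h2 : s0 ∉ A') :
    PM e F {ω | sc q A ω = sc q A' ω} = 0 := by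
  classical
  have e1 : {ω : Om e | sc q A ω = sc q A' ω} =
      {ω : Om e | q.w (ω s0) = sc q A' ω - sc q (A.erase s0) ω} := by
    ext ω
    have h3 : sc q A ω = q.w (ω s0) + sc q (A.erase s0) ω := by
      unfold sc
      rw [Finset.add_sum_erase _ (fun s => q.w (ω s)) h1]
    simp only [Set.mem_ofPred_eq]
    rw [h3]
    constructor <;> intro h <;> linarith
  rw [e1]
  have hX : Measurable[MS ({s0} : Set (Sym2 (V e)))] (fun ω : Om e => q.w (ω s0)) :=
    q.measurable_w.comp (measurable_eval (Set.mem_singleton s0))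
  have hY : Measurable[MS (({s0} : Set (Sym2 (V e)))ᶜ)]
      (fun ω : Om e => sc q A' ω - sc q (A.erase s0) ω) := by
    refine (measurable_sc q A' fun s hs => ?_).sub (measurable_sc q (A.erase s0) fun s hs => ?_)
    · intro h
      rw [Set.mem_singleton_iff] at h
      exact h2 (h ▸ hs)
    · intro h
      rw [Set.mem_singleton_iff] at h
      exact (Finset.mem_erase.1 hs).1 h
  have hind : IndepFun (fun ω : Om e => sc q A' ω - sc q (A.erase s0) ω) (fun ω : Om e => q.w (ω s0))
      (PM e F) := by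
    have h3 := indep_MS F (e := e) (A := ({s0} : Set (Sym2 (V e)))ᶜ) (B := {s0})
      disjoint_compl_left
    rw [IndepFun_iff_Indep]
    exact indep_of_indep_of_le_left (indep_of_indep_of_le_right h3 hX.comap_le) hY.comap_le
  refine prob_eq_zero (hX.mono (MS_le _) le_rfl) (hY.mono (MS_le _) le_rfl) hind fun t => ?_
  have h4 : {ω : Om e | q.w (ω s0) = t} = (fun ω : Om e => ω s0) ⁻¹' {s | q.w s = t} := rfl
  have h5 : MeasurableSet {s : ℝ | q.w s = t} := q.measurable_w (measurableSet_singleton t)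
  rw [h4, ← Measure.map_apply (measurable_pi_apply s0) h5]
  have h6 : (PM e F).map (fun ω : Om e => ω s0) = F := by
    unfold PM
    exact Measure.infinitePi_map_eval (fun _ : Sym2 (V e) => F) s0
  rw [h6]
  exact hF t

theorem ae_ne (q : Par) (F : Measure ℝ) [IsProbabilityMeasure F] (hF : ∀ t : ℝ, F {s | q.w s = t} = 0) :
    ∀ᵐ ω ∂(PM e F), ∀ A A' : Finset (Sym2 (V e)), sc q A ω = sc q A' ω → A = A' := by
  classical
  have : Countable (Sym2 (V e)) := by unfold Sym2; infer_instance
  rw [ae_all_iff]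
  intro A
  rw [ae_all_iff]
  intro A'
  by_cases h : A = A'
  · exact Eventually.of_forall fun ω _ => h
  · have h0 : PM e F {ω | sc q A ω = sc q A' ω} = 0 := by
      by_cases h1 : A ⊆ A'
      · have h2 : ¬ A' ⊆ A := fun h2 => h (Finset.Subset.antisymm h1 h2)
        obtain ⟨s0, hs, hs'⟩ := Finset.not_subset.1 h2
        have := one_side q F hF A' A s0 hs hs'
        rw [← this]
        congr 1
        ext ω
        exact eq_comm
      · obtain ⟨s0, hs, hs'⟩ := Finset.not_subset.1 h1
        exact one_side q F hF A A' s0 hs hs'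
    rw [ae_iff]
    refine measure_mono_null (fun ω hω => ?_) h0
    simp only [Set.mem_ofPred_eq] at hω ⊢
    by_contra h2
    exact hω fun h3 => absurd h3 h2

/-- the edges of the initial segment -/
noncomputable def seg (x : ℕ → V e) (m : ℕ) : Finset (Sym2 (V e)) :=
  (Finset.range m).image fun k => s(x k, x (k + 1))

lemma edge_inj {x : ℕ → V e} (hx : Function.Injective x) {i j : ℕ}
    (h : s(x i, x (i + 1)) = s(x j, x (j + 1))) : i = j := by
  rw [Sym2.eq_iff] at h
  rcases h with ⟨h1, -⟩ | ⟨h1, h2⟩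
  · exact hx h1
  · have a1 := hx h1
    have a2 := hx h2
    omega

lemma sc_seg (q : Par) (ω : Om e) {x : ℕ → V e} (hx : Function.Injective x) (m : ℕ) :
    sc q (seg x m) ω = ∑ k ∈ Finset.range m, q.w (ω s(x k, x (k + 1))) := by
  unfold sc seg
  rw [Finset.sum_image fun i _ j _ h => edge_inj hx h]

lemma seg_card {x : ℕ → V e} (hx : Function.Injective x) (m : ℕ) : (seg x m).card = m := by
  unfold seg
  rw [Finset.card_image_of_injective _ (fun i j h => edge_inj hx h), Finset.card_range]

lemma seg_eq {x x' : ℕ → V e} (hx : Function.Injective x) (hx' : Function.Injective x') (h0 : x 0 = x' 0)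
    {m : ℕ} (h : seg x m = seg x' m) : ∀ k, k ≤ m → x k = x' k := by
  have key : ∀ k, k ≤ m → ∀ j, j ≤ k → x j = x' j := by
    intro k
    induction k with
    | zero =>
      intro _ j hj
      have : j = 0 := by omega
      rw [this, h0]
    | succ k ih =>
      intro hk j hj
      have ih' := ih (by omega)
      rcases Nat.lt_or_ge j (k + 1) with hlt | hge
      · exact ih' j (by omega)
      have hj' : j = k + 1 := by omega
      subst hj'
      have h1 : s(x k, x (k + 1)) ∈ seg x' m := by
        rw [← h]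
        exact Finset.mem_image.2 ⟨k, Finset.mem_range.2 (by omega), rfl⟩
      obtain ⟨i, -, hi⟩ := Finset.mem_image.1 h1
      have hk' := ih' k le_rfl
      rw [Sym2.eq_iff] at hi
      rcases hi with ⟨a1, a2⟩ | ⟨a1, a2⟩
      · rw [hk'] at a1
        have := hx' a1
        rw [this] at a2
        exact a2.symm
      · rw [hk'] at a2
        have h3 := hx' a2
        have h4 : x i = x' i := ih' i (by omega)
        rw [← h4] at a1
        have h5 := hx a1
        omega
  exact fun k hk => key k hk k le_rfl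

theorem uniq : UniqT := by
  intro e q F _ hF
  filter_upwards [ae_ne q F hF] with ω hω
  rintro x x' ⟨h0, -, hi, hT⟩ ⟨h0', -, hi', hT'⟩ m n hmn
  have h1 := hT 0 m (Nat.zero_le _)
  have h2 := hT' 0 n (Nat.zero_le _)
  rw [h0, hmn] at h1
  rw [h0'] at h2
  rw [Nat.Ico_zero_eq_range] at h1 h2
  have h3 : sc q (seg x m) ω = sc q (seg x' n) ω := by
    rw [sc_seg q ω hi, sc_seg q ω hi', ← h1, ← h2]
  have h4 := hω _ _ h3
  have h5 : m = n := by
    rw [← seg_card hi m, ← seg_card hi' n, h4]
  subst h5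
  exact ⟨rfl, seg_eq hi hi' (by rw [h0, h0']) h4⟩

end Pool.Agent.J6H1.DIR
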